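import Pool.Agent.Y262.EG.Stm

/-!
# EG-REV: the reversed flow
-/

set_option autoImplicit false

open Set Filter Topology MeasureTheory
open scoped ContDiff

noncomputable section

namespace Pool.Agent.Y273.EG

open Pool.Agent.Y262.EG

lemma dv_neg {P : Type} [TopologicalSpace P] [MeasurableSpace P] {m : Measure P}
    {Ac : (P → ℝ) → Prop} {d : (P → ℝ) → P → ℝ} (h : Dv m Ac d) :
    Dv m Ac (fun F x => -d F x) where
  ct F hF := (h.ct F hF).neg
  add F G hF hG α β x := by
    show -d _ x = _
    rw [h.add F G hF hG α β x]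
    ring
  mul F G hF hG x := by
    show -d _ x = _
    rw [h.mul F G hF hG x]
    ring
  inv F hF h0 x := by
    show -d _ x = _
    rw [h.inv F hF h0 x]
    ring
  ibp F hF := by rw [integral_neg, h.ibp F hF, neg_zero]
  loc F hF x hx := by
    show -d F x = 0
    rw [h.loc F hF x hx, neg_zero]

/-- substitution -/
lemma int_rev (G : ℝ → ℝ) (T : ℝ) : ∫ t in (0 : ℝ)..T, G (-t) = -∫ t in (0 : ℝ)..(-T), G t := by
  rw [intervalIntegral.integral_comp_neg, neg_zero, intervalIntegral.integral_symm]

lemma der_rev {G : ℝ → ℝ} {a t : ℝ} (h : HasDerivAt G a (-t)) :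
    HasDerivAt (fun τ => G (-τ)) (-a) t := by
  have h1 := h.comp t (hasDerivAt_neg t)
  rwa [mul_neg_one] at h1

theorem rev : StRev := by
  intro P _ _ _ _ m Fl Ac dX dH dV k c c1 s s1 h
  have huu : ∀ T, uu (fun t x => c (-t) x) (fun t x => -s (-t) x) T =
      fun x => (-1) * uu c s (-T) x + 0 * 1 := by
    intro T
    funext x
    unfold uu
    rw [div_neg]
    ring
  have hyy : ∀ T t x, yy (fun t x => c (-t) x) (fun t x => -s (-t) x) T t x =
      yy c s (-T) (-t) x := by
    intro T t x
    unfold yy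
    rw [huu]
    ring
  have hcn : Continuous fun a : ℝ × P => (-a.1, a.2) := by fun_prop
  refine
    { fin := h.fin
      flc := h.flc.comp hcn
      fl0 := fun x => by
        show Fl (-0) x = x
        rw [neg_zero, h.fl0]
      fla := fun t t' x => by
        show Fl (-(t + t')) x = Fl (-t) (Fl (-t') x)
        rw [neg_add, h.fla]
      flm := fun t => h.flm (-t)
      ct := h.ct
      cst := h.cst
      add := h.add
      mul := h.mul
      inv := h.inv
      dvX := dv_neg h.dvX
      dvH := dv_neg h.dvH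
      dvV := h.dvV
      dens := h.dens
      cmp := ?_
      alg := fun F hF x t => der_rev (h.alg F hF x (-t))
      kA := h.kA
      k0 := h.k0
      kV := h.kV
      kH := ?_
      jc := ?_
      jac := ?_
      uA := ?_
      cl := ?_ }
  · intro F hF t
    obtain ⟨h1, h2⟩ := h.cmp F hF (-t)
    refine ⟨h1, fun x => ?_⟩
    obtain ⟨h3, h4, h5⟩ := h2 x
    refine ⟨?_, ?_, ?_⟩
    · show -dX _ x = _
      rw [h3]
    · rw [h4]
      ring
    · show -dH _ x = _
      rw [h5]
      ring
  · obtain ⟨C, hC⟩ := h.kH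
    refine ⟨C, fun x => ?_⟩
    show |-dH k x| ≤ _
    rw [abs_neg]
    exact hC x
  · obtain ⟨h1, h2, h3, h4⟩ := h.jc
    exact ⟨h1.comp hcn, (h2.comp hcn).neg, (h3.comp hcn).neg, h4.comp hcn⟩
  · intro x
    have hJ := h.jac x
    exact
      { kc := hJ.kc.comp continuous_neg
        c0 := by
          show c (-0) x = 1
          rw [neg_zero]
          exact hJ.c0
        c10 := by
          show -c1 (-0) x = 0
          rw [neg_zero]
          have h1 : c1 0 x = 0 := hJ.c10
          rw [h1, neg_zero]
        s0 := by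
          show -s (-0) x = 0
          rw [neg_zero]
          have h1 : s 0 x = 0 := hJ.s0
          rw [h1, neg_zero]
        s10 := by
          show s1 (-0) x = 1
          rw [neg_zero]
          exact hJ.s10
        dc := fun t => der_rev (hJ.dc (-t))
        dc1 := fun t => by
          have h1 := (der_rev (hJ.dc1 (-t))).neg
          rw [neg_neg] at h1
          exact h1
        ds := fun t => by
          have h1 := (der_rev (hJ.ds (-t))).neg
          rw [neg_neg] at h1
          exact h1
        ds1 := fun t => by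
          have h1 := der_rev (hJ.ds1 (-t))
          rw [← mul_neg] at h1
          exact h1 }
  · intro T hT
    obtain ⟨hA, hA'⟩ := h.uA (-T) (neg_ne_zero.2 hT)
    rw [huu]
    refine ⟨h.add _ _ hA h.cst (-1) 0, fun x => ?_⟩
    obtain ⟨h1, h2⟩ := hA' x
    constructor
    · rw [h.dvV.add _ _ hA h.cst (-1) 0 x, h1]
      have h3 := int_rev (fun t => (yy c s (-T) t x) ^ 2 * s t x * dH k (Fl t x)) T
      have h4 : (∫ t in (0 : ℝ)..T, (yy (fun t x => c (-t) x) (fun t x => -s (-t) x) T t x) ^ 2 *
          -s (-t) x * -dH k (Fl (-t) x)) =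
          ∫ t in (0 : ℝ)..T, (yy c s (-T) (-t) x) ^ 2 * s (-t) x * dH k (Fl (-t) x) := by
        congr 1
        funext t
        rw [hyy]
        ring
      rw [h4, h3]
      ring
    · show -dH _ x = _
      rw [h.dvH.add _ _ hA h.cst (-1) 0 x, h2]
      have h3 := int_rev (fun t => (yy c s (-T) t x) ^ 2 * c t x * dH k (Fl t x)) T
      have h4 : (∫ t in (0 : ℝ)..T, (yy (fun t x => c (-t) x) (fun t x => -s (-t) x) T t x) ^ 2 *
          c (-t) x * -dH k (Fl (-t) x)) =
          -∫ t in (0 : ℝ)..T, (yy c s (-T) (-t) x) ^ 2 * c (-t) x * dH k (Fl (-t) x) := by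
        rw [← intervalIntegral.integral_neg]
        congr 1
        funext t
        rw [hyy]
        ring
      rw [h4, h3]
      ring
  · obtain ⟨κ, C, hκ, hC⟩ := h.cl
    refine ⟨κ, C, hκ, fun l hl => ?_⟩
    refine le_trans ?_ (hC l hl)
    have h1 : {x | ∀ t ∈ Icc 0 l, k (Fl (-t) x) < κ} ⊆
        Fl (-l) ⁻¹' {x | ∀ t ∈ Icc 0 l, k (Fl t x) < κ} := by
      intro x hx t ht
      rw [mem_Icc] at ht
      have h2 := hx (l - t) ⟨by linarith, by linarith⟩
      rw [neg_sub] at h2
      show k (Fl t (Fl (-l) x)) < κ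
      rw [← h.fla, ← sub_eq_add_neg]
      exact h2
    refine (measure_mono h1).trans ?_
    have h3 := (h.flm (-l))
    have h4 := Measure.le_map_apply (μ := m) h3.measurable.aemeasurable
      {x | ∀ t ∈ Icc 0 l, k (Fl t x) < κ}
    rwa [h3.map_eq] at h4

end Pool.Agent.Y273.EG
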